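import Mathlib

/-!
# The lattice `R(G)` of the regular closed families of connected sets of vertices of a graph
-/

set_option autoImplicit false

namespace Pool.Agent.H711.LI

variable {V : Type*} (G : SimpleGraph V)

/-- `so(G)`: the (nonempty) sets of vertices which induce a connected subgraph. -/
def so : Set (Set V) := {X | (G.induce X).Connected}

/-- A family of sets of vertices is closed if with two disjoint members `X`, `Y` with
`X ∪ Y ∈ so(G)` it contains `X ∪ Y`. -/
def IsClosedFam (a : Set (Set V)) : Prop :=
  ∀ X ∈ a, ∀ Y ∈ a, Disjoint X Y → X ∪ Y ∈ so G → X ∪ Y ∈ a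

/-- The closure of a family: the intersection of all closed families containing it. -/
def cl (a : Set (Set V)) : Set (Set V) := ⋂₀ {b | a ⊆ b ∧ IsClosedFam G b}

/-- The interior of a family `a ⊆ so(G)`: the complement in `so(G)` of the closure of the
complement. -/
def interior (a : Set (Set V)) : Set (Set V) := so G \ cl G (so G \ a)

/-- `a ⊆ so(G)` is regular closed if it is the closure of its interior. -/
def IsRegularClosed (a : Set (Set V)) : Prop := a ⊆ so G ∧ a = cl G (interior G a)

theorem so_closed : IsClosedFam G (so G) := fun _ _ _ _ _ h => h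

theorem subset_cl (a : Set (Set V)) : a ⊆ cl G a := fun _ hX _ hb => hb.1 hX

theorem cl_closed (a : Set (Set V)) : IsClosedFam G (cl G a) :=
  fun X hX Y hY hd hc b hb => hb.2 X (hX b hb) Y (hY b hb) hd hc

variable {G}

theorem cl_subset {a b : Set (Set V)} (h : a ⊆ b) (hb : IsClosedFam G b) : cl G a ⊆ b :=
  fun _ hX => hX b ⟨h, hb⟩

theorem cl_mono {a b : Set (Set V)} (h : a ⊆ b) : cl G a ⊆ cl G b :=
  cl_subset (h.trans (subset_cl G b)) (cl_closed G b)

theorem cl_sub_so {a : Set (Set V)} (h : a ⊆ so G) : cl G a ⊆ so G := cl_subset h (so_closed G)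

theorem interior_sub_so (a : Set (Set V)) : interior G a ⊆ so G := Set.sdiff_subset

theorem interior_subset (a : Set (Set V)) : interior G a ⊆ a := by
  rintro X ⟨hX, hn⟩
  by_contra h
  exact hn (subset_cl G _ ⟨hX, h⟩)

theorem interior_mono {a b : Set (Set V)} (h : a ⊆ b) : interior G a ⊆ interior G b := by
  rintro X ⟨hX, hn⟩
  have h1 : so G \ b ⊆ so G \ a := fun Y hY => ⟨hY.1, fun h' => hY.2 (h h')⟩
  exact ⟨hX, fun hc => hn (cl_mono h1 hc)⟩

/-- a family `u ⊆ so(G)` with closed complement is contained in the interior of every family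
containing it -/
theorem sub_interior {u a : Set (Set V)} (hu : u ⊆ so G) (hc : IsClosedFam G (so G \ u))
    (h : u ⊆ a) : u ⊆ interior G a := by
  intro X hX
  have h1 : so G \ a ⊆ so G \ u := fun Y hY => ⟨hY.1, fun h'' => hY.2 (h h'')⟩
  refine ⟨hu hX, fun h' => ?_⟩
  exact (cl_subset h1 hc h').2 hX

theorem compl_interior_closed (a : Set (Set V)) : IsClosedFam G (so G \ interior G a) := by
  have h : so G \ interior G a = cl G (so G \ a) := by
    rw [interior, Set.sdiff_sdiff_cancel_left]
    exact cl_sub_so Set.sdiff_subset
  rw [h]
  exact cl_closed G _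

theorem interior_sub_interior {u a : Set (Set V)} (h : interior G u ⊆ a) :
    interior G u ⊆ interior G a :=
  sub_interior (interior_sub_so u) (compl_interior_closed u) h

theorem regularClosed_cl_interior (u : Set (Set V)) : IsRegularClosed G (cl G (interior G u)) := by
  refine ⟨cl_sub_so (interior_sub_so u), Set.Subset.antisymm ?_ ?_⟩
  · exact cl_mono (interior_sub_interior (subset_cl G _))
  · exact cl_subset (interior_subset _) (cl_closed G _)

/-- the closure of a family `u ⊆ so(G)` with closed complement is regular closed -/
theorem regularClosed_cl {u : Set (Set V)} (hu : u ⊆ so G) (hc : IsClosedFam G (so G \ u)) :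
    IsRegularClosed G (cl G u) := by
  refine ⟨cl_sub_so hu, Set.Subset.antisymm (cl_mono (sub_interior hu hc (subset_cl G u))) ?_⟩
  exact cl_subset (interior_subset _) (cl_closed G _)

variable (G)

/-- The elements of the lattice `R(G) = Reg(so(G), cl)`: the regular closed families. -/
def R : Type _ := {a : Set (Set V) // IsRegularClosed G a}

variable {G}

theorem R.closed (a : R G) : IsClosedFam G a.1 := by
  rw [a.2.2]
  exact cl_closed G _

/-- join -/
def R.sup (a b : R G) : R G := ⟨cl G (a.1 ∪ b.1), by
  refine ⟨cl_sub_so (Set.union_subset a.2.1 b.2.1), Set.Subset.antisymm ?_ ?_⟩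
  · refine cl_subset (Set.union_subset ?_ ?_) (cl_closed G _)
    · intro p hp
      rw [a.2.2] at hp
      exact cl_mono (interior_mono (Set.subset_union_left.trans (subset_cl G _))) hp
    · intro p hp
      rw [b.2.2] at hp
      exact cl_mono (interior_mono (Set.subset_union_right.trans (subset_cl G _))) hp
  · exact cl_subset (interior_subset _) (cl_closed G _)⟩

/-- meet -/
def R.inf (a b : R G) : R G := ⟨cl G (interior G (a.1 ∩ b.1)), regularClosed_cl_interior _⟩

/-- The lattice `R(G)`: the regular closed families ordered by inclusion. -/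
instance R.lattice : Lattice (R G) where
  le a b := a.1 ⊆ b.1
  le_refl a := subset_rfl
  le_trans a b c h h' := Set.Subset.trans h h'
  le_antisymm a b h h' := Subtype.ext (Set.Subset.antisymm h h')
  sup := R.sup
  le_sup_left a b := Set.subset_union_left.trans (subset_cl G _)
  le_sup_right a b := Set.subset_union_right.trans (subset_cl G _)
  sup_le a b c h h' := cl_subset (Set.union_subset h h') c.closed
  inf := R.inf
  inf_le_left a b := cl_subset ((interior_subset _).trans Set.inter_subset_left) a.closed
  inf_le_right a b := cl_subset ((interior_subset _).trans Set.inter_subset_right) b.closed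
  le_inf a b c h h' := by
    show a.1 ⊆ cl G (interior G (b.1 ∩ c.1))
    intro p hp
    rw [a.2.2] at hp
    exact cl_mono (interior_mono (Set.subset_inter h h')) hp

end Pool.Agent.H711.LI
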