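import Pool.Agent.H711.LI.Words
import Pool.Agent.H711.LI.Reg

/-!
# The graph of tokens and links
-/

set_option autoImplicit false

namespace Pool.Agent.H711.LI

section General

variable {V : Type*} {G : SimpleGraph V}

theorem conn_nbr {Y : Set V} (h : Y ∈ so G) {u w : V} (hu : u ∈ Y) (hw : w ∈ Y) (hne : u ≠ w) :
    ∃ z ∈ Y, G.Adj u z := by
  have h' : (G.induce Y).Connected := h
  obtain ⟨W⟩ := h'.preconnected ⟨u, hu⟩ ⟨w, hw⟩
  cases W with
  | nil => exact (hne rfl).elim
  | cons hadj _ => exact ⟨_, Subtype.property _, hadj⟩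

theorem nonempty_of_so {Y : Set V} (h : Y ∈ so G) : Y.Nonempty := by
  have h' : (G.induce Y).Connected := h
  obtain ⟨x⟩ := h'.nonempty
  exact ⟨x.1, x.2⟩

theorem singleton_so (x : V) : ({x} : Set V) ∈ so G := by
  show (G.induce {x}).Connected
  rw [SimpleGraph.connected_iff_exists_forall_reachable]
  refine ⟨⟨x, rfl⟩, ?_⟩
  rintro ⟨y, hy⟩
  have : y = x := hy
  subst this
  exact SimpleGraph.Reachable.refl _

theorem conn_star {Y : Set V} {c : V} (hc : c ∈ Y)
    (h : ∀ u ∈ Y, u = c ∨ G.Adj c u ∨ ∃ z ∈ Y, G.Adj c z ∧ G.Adj z u) : Y ∈ so G := by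
  show (G.induce Y).Connected
  rw [SimpleGraph.connected_iff_exists_forall_reachable]
  refine ⟨⟨c, hc⟩, ?_⟩
  rintro ⟨u, hu⟩
  rcases h u hu with h1 | h1 | ⟨z, hz, h1, h2⟩
  · subst h1
    exact SimpleGraph.Reachable.refl _
  · have h3 : (G.induce Y).Adj ⟨c, hc⟩ ⟨u, hu⟩ := h1
    exact h3.reachable
  · have h3 : (G.induce Y).Adj ⟨c, hc⟩ ⟨z, hz⟩ := h1
    have h4 : (G.induce Y).Adj ⟨z, hz⟩ ⟨u, hu⟩ := h2
    exact h3.reachable.trans h4.reachable

end General

section Graph

universe u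

variable {K : Type u} [Lattice K] (v : ℕ → K) (p q : LTerm)

/-- comparable words -/
def Cmp {p q : LTerm} (x y : Word p q) : Prop := x <:+ y ∨ y <:+ x

/-- the links: pairs of tokens with incomparable words -/
def Lk : Type := {z : El v p q × El v p q // ¬ Cmp z.1.1.2 z.2.1.2}

/-- the vertices: the tokens, the hub `none` and the links -/
abbrev Vt : Type := El v p q ⊕ Option (Lk v p q)

/-- adjacency -/
def adj : Vt v p q → Vt v p q → Prop
  | .inl _, .inr none => True
  | .inl x, .inr (some z) => x = z.1.1 ∨ x = z.1.2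
  | .inr none, .inl _ => True
  | .inr (some z), .inl x => x = z.1.1 ∨ x = z.1.2
  | .inl _, .inl _ => False
  | .inr _, .inr _ => False

/-- the graph -/
def Gr : SimpleGraph (Vt v p q) where
  Adj := adj v p q
  symm := ⟨by
    rintro (x | _ | z) (y | _ | w) h
    all_goals exact h⟩
  loopless := ⟨by
    rintro (x | _ | z) h
    · exact h
    · exact h
    · exact h⟩

theorem vt_finite : Finite (Vt v p q) := by
  have := el_finite (p := p) (q := q) v
  have : Finite (Lk v p q) := Subtype.finite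
  infer_instance

variable {p q}

/-- a token as a vertex -/
def tk (b : Bool) (π : Word p q) (h : Valid v π) : Vt v p q := Sum.inl ⟨(b, π), h⟩

theorem tk_inj {b b' : Bool} {π π' : Word p q} {h : Valid v π} {h' : Valid v π'}
    (e : tk v b π h = tk v b' π' h') : b = b' ∧ π = π' := by
  have := Sum.inl.inj e
  have := congrArg Subtype.val this
  exact Prod.mk.inj this

/-- the hub and all the links belong to `Y` -/
def Full (Y : Set (Vt v p q)) : Prop := ∀ c, (Sum.inr c : Vt v p q) ∈ Y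

/-- the words of the missing tokens are pairwise comparable -/
def Chn (Y : Set (Vt v p q)) : Prop :=
  ∀ x y : El v p q, (Sum.inl x : Vt v p q) ∉ Y → (Sum.inl y : Vt v p q) ∉ Y → Cmp x.1.2 y.1.2

theorem chn_of_so {Y : Set (Vt v p q)} (hY : Y ∈ so (Gr v p q)) (hf : Full v Y) : Chn v Y := by
  intro x y hx hy
  by_contra hn
  obtain ⟨z, hz, hadj⟩ := conn_nbr hY (hf (some ⟨(x, y), hn⟩)) (hf none) (by
    intro h
    have := Sum.inr.inj h
    cases this)
  rcases z with z | z
  · have h1 : z = x ∨ z = y := hadj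
    rcases h1 with h1 | h1
    · exact hx (h1 ▸ hz)
    · exact hy (h1 ▸ hz)
  · exact hadj

theorem so_of_chn {Y : Set (Vt v p q)} (hf : Full v Y) (hc : Chn v Y) : Y ∈ so (Gr v p q) := by
  refine conn_star (hf none) ?_
  rintro (x | _ | z) hx
  · right; left
    exact trivial
  · left; rfl
  · right; right
    by_cases h1 : (Sum.inl z.1.1 : Vt v p q) ∈ Y
    · exact ⟨_, h1, trivial, Or.inl rfl⟩
    · by_cases h2 : (Sum.inl z.1.2 : Vt v p q) ∈ Y
      · exact ⟨_, h2, trivial, Or.inr rfl⟩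
      · exact (z.2 (hc _ _ h1 h2)).elim

/-- a connected set without hub and links is a single token -/
theorem single_of_tokens {Y : Set (Vt v p q)} (hY : Y ∈ so (Gr v p q))
    (h : ∀ c, (Sum.inr c : Vt v p q) ∉ Y) : ∃ x : El v p q, Y = {Sum.inl x} := by
  obtain ⟨y, hy⟩ := nonempty_of_so hY
  rcases y with x | c
  · refine ⟨x, Set.Subset.antisymm ?_ (by rintro _ rfl; exact hy)⟩
    intro w hw
    by_contra hne
    obtain ⟨z, hz, hadj⟩ := conn_nbr hY hw hy hne
    rcases w with w | w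
    · rcases z with z | z
      · exact hadj
      · exact h z hz
    · exact h w hw
  · exact (h c hy).elim

/-- `π` is the longest word of a missing token of the side `b` (or `[]` if there is none) -/
def IsD (b : Bool) (Y : Set (Vt v p q)) (π : Word p q) : Prop :=
  (π = [] ∨ ∃ h : Valid v π, tk v b π h ∉ Y) ∧
    ∀ (π' : Word p q) (h' : Valid v π'), tk v b π' h' ∉ Y → π' <:+ π

variable {v}

theorem IsD.valid {b : Bool} {Y : Set (Vt v p q)} {π : Word p q} (h : IsD v b Y π) :
    Valid v π := by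
  rcases h.1 with h1 | ⟨h1, -⟩
  · subst h1; trivial
  · exact h1

theorem IsD.unique {b : Bool} {Y : Set (Vt v p q)} {π π' : Word p q} (h : IsD v b Y π)
    (h' : IsD v b Y π') : π = π' := by
  have key : ∀ {π π' : Word p q}, IsD v b Y π → IsD v b Y π' → π <:+ π' := by
    intro π π' h h'
    rcases h.1 with h1 | ⟨h1, h2⟩
    · subst h1; exact List.nil_suffix
    · exact h'.2 π h1 h2
  have h1 := key h h'
  have h2 := key h' h
  exact h1.eq_of_length_le h2.length_le

theorem cmp_of_isD {b b' : Bool} {Y : Set (Vt v p q)} {π ρ : Word p q} (hc : Chn v Y)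
    (h : IsD v b Y π) (h' : IsD v b' Y ρ) : Cmp π ρ := by
  rcases h.1 with h1 | ⟨h1, h2⟩
  · subst h1; exact Or.inl List.nil_suffix
  · rcases h'.1 with h3 | ⟨h3, h4⟩
    · subst h3; exact Or.inr List.nil_suffix
    · exact hc _ _ h2 h4

theorem upd_same {b : Bool} {X : Set (Vt v p q)} {τ ρ : Word p q} {hτ : Valid v τ}
    (hX : tk v b τ hτ ∉ X) (hc : Chn v X) (hY : IsD v b (X ∪ {tk v b τ hτ}) ρ) :
    ∃ ρ', IsD v b X ρ' ∧ ρ <:+ ρ' := by
  have hcmp : Cmp ρ τ := by
    rcases hY.1 with h1 | ⟨h1, h2⟩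
    · subst h1; exact Or.inl List.nil_suffix
    · exact hc _ _ (fun h => h2 (Or.inl h)) hX
  have key : ∀ (π' : Word p q) (h' : Valid v π'), tk v b π' h' ∉ X → π' <:+ ρ ∨ π' = τ := by
    intro π' h' h
    by_cases e : tk v b π' h' = tk v b τ hτ
    · exact Or.inr (tk_inj v e).2
    · exact Or.inl (hY.2 π' h' (by rintro (h1 | h1); exact h h1; exact e h1))
  rcases hcmp with h1 | h1
  · refine ⟨τ, ⟨Or.inr ⟨hτ, hX⟩, ?_⟩, h1⟩
    intro π' h' h
    rcases key π' h' h with h2 | h2
    · exact h2.trans h1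
    · rw [h2]
  · refine ⟨ρ, ⟨?_, ?_⟩, List.suffix_refl _⟩
    · rcases hY.1 with h2 | ⟨h2, h3⟩
      · exact Or.inl h2
      · exact Or.inr ⟨h2, fun h => h3 (Or.inl h)⟩
    · intro π' h' h
      rcases key π' h' h with h2 | h2
      · exact h2
      · rw [h2]; exact h1

theorem upd_other {b b' : Bool} (hb : b' ≠ b) {X : Set (Vt v p q)} {τ π : Word p q}
    {hτ : Valid v τ} (hY : IsD v b' (X ∪ {tk v b τ hτ}) π) : IsD v b' X π := by
  refine ⟨?_, ?_⟩
  · rcases hY.1 with h2 | ⟨h2, h3⟩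
    · exact Or.inl h2
    · exact Or.inr ⟨h2, fun h => h3 (Or.inl h)⟩
  · intro π' h' h
    refine hY.2 π' h' ?_
    rintro (h1 | h1)
    · exact h h1
    · exact hb (tk_inj v h1).1

end Graph

end Pool.Agent.H711.LI
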