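import Pool.Agent.H711.LI.Gr

/-!
# No nontrivial lattice identity holds in all the lattices `R(G)`, `G` a finite graph
-/

set_option autoImplicit false

namespace Pool.Agent.H711.LI

section Graph

universe u

variable {K : Type u} [Lattice K] (v : ℕ → K) {p q : LTerm}

/-- sets on which every term is true -/
def Top (Y : Set (Vt v p q)) : Prop :=
  (∃ (ρ : Word p q) (h : Valid v ρ), Y = {tk v true ρ h}) ∨
  ((Sum.inr none : Vt v p q) ∈ Y ∧ ¬ Full v Y) ∨
  (Full v Y ∧ ∃ π ρ, IsD v false Y π ∧ IsD v true Y ρ ∧ SExt true ρ π)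

/-- sets on which every term is false -/
def Bot (Y : Set (Vt v p q)) : Prop :=
  ((Sum.inr none : Vt v p q) ∉ Y ∧ ¬ ∃ (ρ : Word p q) (h : Valid v ρ), Y = {tk v true ρ h}) ∨
  (Full v Y ∧ ∃ π ρ, IsD v false Y π ∧ IsD v true Y ρ ∧ SExt false π ρ)

/-- sets with a label -/
def MM (Y : Set (Vt v p q)) (π ρ : Word p q) : Prop :=
  Full v Y ∧ IsD v false Y π ∧ IsD v true Y ρ ∧ EP π ρ

/-- sets on which the term `r` has to be true -/
def Good (r : LTerm) (Y : Set (Vt v p q)) : Prop := Top v Y ∨ ∃ π ρ, MM v Y π ρ ∧ Gam v ρ r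

/-- sets on which the term `r` has to be false -/
def Bad (r : LTerm) (Y : Set (Vt v p q)) : Prop := Bot v Y ∨ ∃ π ρ, MM v Y π ρ ∧ Del v π r

theorem not_hub_tk {b : Bool} {ρ : Word p q} {h : Valid v ρ} :
    (Sum.inr none : Vt v p q) ∉ ({tk v b ρ h} : Set (Vt v p q)) := by
  intro h'
  have h1 : (Sum.inr none : Vt v p q) = tk v b ρ h := h'
  cases h1

theorem good_bad (hpq : ¬ p.eval v ≤ q.eval v) {r : LTerm} {Y : Set (Vt v p q)}
    (hg : Good v r Y) (hb : Bad v r Y) : False := by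
  have notTop1 : ∀ {ρ : Word p q} {h : Valid v ρ}, Full v Y → Y = {tk v true ρ h} → False := by
    intro ρ h hf e
    have := hf none
    rw [e] at this
    exact not_hub_tk v this
  rcases hg with (⟨ρ, h, e⟩ | ⟨h1, h2⟩ | ⟨h1, π, ρ, h2, h3, h4⟩) | ⟨π, ρ, ⟨h1, h2, h3, h4⟩, h5⟩
  · rcases hb with (⟨k1, k2⟩ | ⟨k1, -⟩) | ⟨π, ρ, ⟨k1, -⟩, -⟩
    · exact k2 ⟨ρ, h, e⟩
    · exact notTop1 k1 e
    · exact notTop1 k1 e
  · rcases hb with (⟨k1, k2⟩ | ⟨k1, -⟩) | ⟨π, ρ, ⟨k1, -⟩, -⟩
    · exact k1 h1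
    · exact h2 k1
    · exact h2 k1
  · rcases hb with (⟨k1, k2⟩ | ⟨k1, π', ρ', k2, k3, k4⟩) | ⟨π', ρ', ⟨k1, k2, k3, k4⟩, -⟩
    · exact k1 (h1 none)
    · rw [← h2.unique k2, ← h3.unique k3] at k4
      exact b_not_t h4 k4
    · rw [← h2.unique k2, ← h3.unique k3] at k4
      exact ep_not_b k4 h4
  · rcases hb with (⟨k1, k2⟩ | ⟨k1, π', ρ', k2, k3, k4⟩) | ⟨π', ρ', ⟨k1, k2, k3, k4⟩, k5⟩
    · exact k1 (h1 none)
    · rw [← h2.unique k2, ← h3.unique k3] at k4
      exact ep_not_t h4 k4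
    · rw [← h2.unique k2] at k5
      exact ep_sep v hpq h2.valid h3.valid h4 (h5.2.2.trans k5.2.2)

theorem not_single {X Y : Set (Vt v p q)} (hX : X ∈ so (Gr v p q)) (hY : Y ∈ so (Gr v p q))
    (hd : Disjoint X Y) {x : Vt v p q} (h : X ∪ Y = {x}) : False := by
  obtain ⟨a, ha⟩ := nonempty_of_so hX
  obtain ⟨b, hb⟩ := nonempty_of_so hY
  have h1 : a = x := by
    have : a ∈ X ∪ Y := Or.inl ha
    rw [h] at this; exact this
  have h2 : b = x := by
    have : b ∈ X ∪ Y := Or.inr hb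
    rw [h] at this; exact this
  rw [h1] at ha
  rw [h2] at hb
  exact Set.disjoint_left.1 hd ha hb

/-- if the union has the hub and all links and `Y` is a token, then `X` has them -/
theorem full_of_union {X : Set (Vt v p q)} {b : Bool} {τ : Word p q} {hτ : Valid v τ}
    (h : Full v (X ∪ {tk v b τ hτ})) : Full v X := by
  intro c
  rcases h c with h1 | h1
  · exact h1
  · cases (show (Sum.inr c : Vt v p q) = tk v b τ hτ from h1)

/-- adding a right token, first part of the case analysis for `Bad` -/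
theorem bad_step {r : LTerm} {X : Set (Vt v p q)} (hX : X ∈ so (Gr v p q)) {τ : Word p q}
    {hτ : Valid v τ} (hd : tk v true τ hτ ∉ X) (hf : Full v (X ∪ {tk v true τ hτ}))
    (h : Bad v r (X ∪ {tk v true τ hτ})) : Bad v r X := by
  have hfX := full_of_union v hf
  have hc := chn_of_so v hX hfX
  rcases h with (⟨h1, -⟩ | ⟨-, π, ρ, h2, h3, h4⟩) | ⟨π, ρ, ⟨-, h2, h3, h4⟩, h5⟩
  · exact (h1 (hf none)).elim
  · obtain ⟨ρ', k1, k2⟩ := upd_same hd hc h3
    have h2' : IsD v false X π := upd_other (by decide) h2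
    exact Or.inl (Or.inr ⟨hfX, π, ρ', h2', k1, sext_trans h4 k2⟩)
  · obtain ⟨ρ', k1, k2⟩ := upd_same hd hc h3
    have h2' : IsD v false X π := upd_other (by decide) h2
    have h6 : Cmp π ρ' := cmp_of_isD hc h2' k1
    rcases lemB h4 k2 h6 with h7 | h7
    · exact Or.inr ⟨π, ρ', ⟨hfX, h2', k1, h7⟩, h5⟩
    · exact Or.inl (Or.inr ⟨hfX, π, ρ', h2', k1, h7⟩)

theorem good_step {r : LTerm} {X : Set (Vt v p q)} (hX : X ∈ so (Gr v p q)) {τ : Word p q}
    {hτ : Valid v τ} (hd : tk v false τ hτ ∉ X) (hf : Full v (X ∪ {tk v false τ hτ}))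
    (h : Good v r (X ∪ {tk v false τ hτ})) : Good v r X := by
  have hfX := full_of_union v hf
  have hc := chn_of_so v hX hfX
  rcases h with (⟨ρ, h1, e⟩ | ⟨-, h1⟩ | ⟨-, π, ρ, h2, h3, h4⟩) | ⟨π, ρ, ⟨-, h2, h3, h4⟩, h5⟩
  · have := hf none
    rw [e] at this
    exact (not_hub_tk v this).elim
  · exact (h1 hf).elim
  · obtain ⟨π', k1, k2⟩ := upd_same hd hc h2
    have h3' : IsD v true X ρ := upd_other (by decide) h3
    exact Or.inl (Or.inr (Or.inr ⟨hfX, π', ρ, k1, h3', sext_trans h4 k2⟩))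
  · obtain ⟨π', k1, k2⟩ := upd_same hd hc h2
    have h3' : IsD v true X ρ := upd_other (by decide) h3
    have h6 : Cmp π' ρ := cmp_of_isD hc k1 h3'
    rcases lemA h4 k2 h6 with h7 | h7
    · exact Or.inr ⟨π', ρ, ⟨hfX, k1, h3', h7⟩, h5⟩
    · exact Or.inl (Or.inr (Or.inr ⟨hfX, π', ρ, k1, h3', h7⟩))

/-- the sets which are not bad form a closed family -/
theorem bad_closed (r : LTerm) : IsClosedFam (Gr v p q) (so (Gr v p q) \ {Y | Bad v r Y}) := by
  -- the asymmetric version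
  have key : ∀ X Y : Set (Vt v p q), X ∈ so (Gr v p q) → Y ∈ so (Gr v p q) → Disjoint X Y →
      (Sum.inr none : Vt v p q) ∈ X → Bad v r (X ∪ Y) → Bad v r X ∨ Bad v r Y := by
    intro X Y hX hY hd hn hb
    have hnY : (Sum.inr none : Vt v p q) ∉ Y := fun h => Set.disjoint_left.1 hd hn h
    by_cases hs : ∃ (ρ : Word p q) (h : Valid v ρ), Y = {tk v true ρ h}
    · obtain ⟨τ, hτ, rfl⟩ := hs
      left
      have hf : Full v (X ∪ {tk v true τ hτ}) := by
        rcases hb with (⟨h1, -⟩ | ⟨h1, -⟩) | ⟨π, ρ, ⟨h1, -⟩, -⟩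
        · exact (h1 (Or.inl hn)).elim
        · exact h1
        · exact h1
      exact bad_step v hX (fun h => Set.disjoint_left.1 hd h rfl) hf hb
    · right
      exact Or.inl (Or.inl ⟨hnY, hs⟩)
  rintro X ⟨hX, hX'⟩ Y ⟨hY, hY'⟩ hd hXY
  refine ⟨hXY, fun hb => ?_⟩
  by_cases hn : (Sum.inr none : Vt v p q) ∈ X
  · rcases key X Y hX hY hd hn hb with h | h
    · exact hX' h
    · exact hY' h
  · by_cases hm : (Sum.inr none : Vt v p q) ∈ Y
    · rw [Set.union_comm] at hb
      rcases key Y X hY hX hd.symm hm hb with h | h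
      · exact hY' h
      · exact hX' h
    · by_cases hs : ∃ (ρ : Word p q) (h : Valid v ρ), X = {tk v true ρ h}
      · by_cases hs' : ∃ (ρ : Word p q) (h : Valid v ρ), Y = {tk v true ρ h}
        · obtain ⟨ρ, h, rfl⟩ := hs
          obtain ⟨ρ', h', rfl⟩ := hs'
          obtain ⟨x, hx⟩ := single_of_tokens v hXY (by
            rintro c (hc | hc)
            · cases (show (Sum.inr c : Vt v p q) = tk v true ρ h from hc)
            · cases (show (Sum.inr c : Vt v p q) = tk v true ρ' h' from hc))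
          exact not_single v hX hY hd hx
        · exact hY' (Or.inl (Or.inl ⟨hm, hs'⟩))
      · exact hX' (Or.inl (Or.inl ⟨hn, hs⟩))

/-- the sets which are not good form a closed family -/
theorem good_closed (r : LTerm) : IsClosedFam (Gr v p q) (so (Gr v p q) \ {Y | Good v r Y}) := by
  have key : ∀ X Y : Set (Vt v p q), X ∈ so (Gr v p q) → Y ∈ so (Gr v p q) → Disjoint X Y →
      (Sum.inr none : Vt v p q) ∈ X → Good v r (X ∪ Y) → Good v r X ∨ Good v r Y := by
    intro X Y hX hY hd hn hb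
    by_cases hfX : Full v X
    · have hfXY : Full v (X ∪ Y) := fun c => Or.inl (hfX c)
      obtain ⟨⟨⟨b, τ⟩, hτ⟩, hx⟩ := single_of_tokens v hY
        (fun c hc => Set.disjoint_left.1 hd (hfX c) hc)
      cases b
      · left
        have hx' : Y = {tk v false τ hτ} := hx
        subst hx'
        exact good_step v hX (fun h => Set.disjoint_left.1 hd h rfl) hfXY hb
      · right
        exact Or.inl (Or.inl ⟨τ, hτ, hx⟩)
    · left
      exact Or.inl (Or.inr (Or.inl ⟨hn, hfX⟩))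
  rintro X ⟨hX, hX'⟩ Y ⟨hY, hY'⟩ hd hXY
  refine ⟨hXY, fun hb => ?_⟩
  by_cases hn : (Sum.inr none : Vt v p q) ∈ X
  · rcases key X Y hX hY hd hn hb with h | h
    · exact hX' h
    · exact hY' h
  · by_cases hm : (Sum.inr none : Vt v p q) ∈ Y
    · rw [Set.union_comm] at hb
      rcases key Y X hY hX hd.symm hm hb with h | h
      · exact hY' h
      · exact hX' h
    · have hnn : (Sum.inr none : Vt v p q) ∉ X ∪ Y := by
        rintro (h | h)
        · exact hn h
        · exact hm h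
      rcases hb with (⟨ρ, h, e⟩ | ⟨h1, -⟩ | ⟨h1, -⟩) | ⟨π, ρ, ⟨h1, -⟩, -⟩
      · exact not_single v hX hY hd e
      · exact hnn h1
      · exact hnn (h1 none)
      · exact hnn (h1 none)

/-! ### The values of the terms -/

variable (p q) in
/-- the open family of the `i`-th variable -/
def UU (i : ℕ) : Set (Set (Vt v p q)) := {Y | Y ∈ so (Gr v p q) ∧ Good v (.var i) Y}

theorem UU_compl (i : ℕ) : IsClosedFam (Gr v p q) (so (Gr v p q) \ UU v p q i) := by
  have h : so (Gr v p q) \ UU v p q i = so (Gr v p q) \ {Y | Good v (.var i) Y} := by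
    ext Y
    constructor
    · rintro ⟨h1, h2⟩
      exact ⟨h1, fun h3 => h2 ⟨h1, h3⟩⟩
    · rintro ⟨h1, h2⟩
      exact ⟨h1, fun h3 => h2 h3.2⟩
  rw [h]
  exact good_closed v _

variable (p q) in
/-- the values of the variables -/
def FF (i : ℕ) : R (Gr v p q) :=
  ⟨cl (Gr v p q) (UU v p q i), regularClosed_cl (fun _ h => h.1) (UU_compl v i)⟩

variable (p q) in
/-- the values of the terms -/
def VV (r : LTerm) : R (Gr v p q) := r.eval (FF v p q)

theorem VV_sup (r s : LTerm) : (VV v p q (.sup r s)).1 =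
    cl (Gr v p q) ((VV v p q r).1 ∪ (VV v p q s).1) := rfl

theorem VV_inf (r s : LTerm) : (VV v p q (.inf r s)).1 =
    cl (Gr v p q) (interior (Gr v p q) ((VV v p q r).1 ∩ (VV v p q s).1)) := rfl

theorem so_tk (b : Bool) (τ : Word p q) (hτ : Valid v τ) :
    ({tk v b τ hτ} : Set (Vt v p q)) ∈ so (Gr v p q) := singleton_so _

theorem top_tk {r : LTerm} (τ : Word p q) (hτ : Valid v τ) :
    Good v r ({tk v true τ hτ} : Set (Vt v p q)) := Or.inl (Or.inl ⟨τ, hτ, rfl⟩)

theorem bot_tk {r : LTerm} (τ : Word p q) (hτ : Valid v τ) :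
    Bad v r ({tk v false τ hτ} : Set (Vt v p q)) := by
  refine Or.inl (Or.inl ⟨not_hub_tk v, ?_⟩)
  rintro ⟨ρ, h, e⟩
  have h1 : tk v false τ hτ ∈ ({tk v true ρ h} : Set (Vt v p q)) := by rw [← e]; rfl
  have h2 : tk v false τ hτ = tk v true ρ h := h1
  exact absurd (tk_inj v h2).1 (by decide)

/-- removal of a longer token -/
theorem remove {b b' : Bool} (hb : b' ≠ b) {Y : Set (Vt v p q)} {α β τ : Word p q}
    (hτ : Valid v τ) (hf : Full v Y) (hα : IsD v b Y α) (hβ : IsD v b' Y β)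
    (hατ : α <:+ τ) (hl : α.length < τ.length) (hβτ : Cmp β τ) :
    tk v b τ hτ ∈ Y ∧ Y \ {tk v b τ hτ} ∈ so (Gr v p q) ∧ Full v (Y \ {tk v b τ hτ}) ∧
      IsD v b (Y \ {tk v b τ hτ}) τ ∧ IsD v b' (Y \ {tk v b τ hτ}) β := by
  have h1 : tk v b τ hτ ∈ Y := by
    by_contra h
    have := (hα.2 τ hτ h).length_le
    omega
  have hfX : Full v (Y \ {tk v b τ hτ}) := by
    intro c
    refine ⟨hf c, fun h => ?_⟩
    cases (show (Sum.inr c : Vt v p q) = tk v b τ hτ from h)
  have key : ∀ (π' : Word p q) (h' : Valid v π'), tk v b π' h' ∉ Y \ {tk v b τ hτ} → π' <:+ τ := by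
    intro π' h' h
    by_cases e : tk v b π' h' = tk v b τ hτ
    · rw [(tk_inj v e).2]
    · exact (hα.2 π' h' (fun h2 => h ⟨h2, e⟩)).trans hατ
  have key' : ∀ (π' : Word p q) (h' : Valid v π'),
      tk v b' π' h' ∉ Y \ {tk v b τ hτ} → π' <:+ β := by
    intro π' h' h
    refine hβ.2 π' h' (fun h2 => h ⟨h2, fun h3 => hb (tk_inj v (show tk v b' π' h' =
      tk v b τ hτ from h3)).1⟩)
  have d1 : IsD v b (Y \ {tk v b τ hτ}) τ := ⟨Or.inr ⟨hτ, fun h => h.2 rfl⟩, key⟩
  have d2 : IsD v b' (Y \ {tk v b τ hτ}) β := by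
    refine ⟨?_, key'⟩
    rcases hβ.1 with h2 | ⟨h2, h3⟩
    · exact Or.inl h2
    · exact Or.inr ⟨h2, fun h => h3 h.1⟩
  refine ⟨h1, so_of_chn v hfX ?_, hfX, d1, d2⟩
  -- all the words are suffixes of the longer of `τ` and `β`
  obtain ⟨μ, hμ1, hμ2⟩ : ∃ μ : Word p q, τ <:+ μ ∧ β <:+ μ := by
    rcases hβτ with h | h
    · exact ⟨τ, List.suffix_refl _, h⟩
    · exact ⟨β, h, List.suffix_refl _⟩
  have all : ∀ x : El v p q, (Sum.inl x : Vt v p q) ∉ Y \ {tk v b τ hτ} → x.1.2 <:+ μ := by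
    rintro ⟨⟨c, π'⟩, h'⟩ hx
    by_cases hc : c = b
    · subst hc
      exact (key π' h' hx).trans hμ1
    · have : c = b' := by
        cases c <;> cases b <;> cases b' <;> simp_all
      subst this
      exact (key' π' h' hx).trans hμ2
  intro x y hx hy
  exact List.suffix_or_suffix_of_suffix (all x hx) (all y hy)

theorem union_remove {Y : Set (Vt v p q)} {x : Vt v p q} (h : x ∈ Y) : (Y \ {x}) ∪ {x} = Y := by
  ext y
  constructor
  · rintro (h1 | h1)
    · exact h1.1
    · rw [show y = x from h1]; exact h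
  · intro h1
    by_cases e : y = x
    · exact Or.inr e
    · exact Or.inl ⟨h1, e⟩

/-- what is proved for every term -/
structure Inv (r : LTerm) : Prop where
  good : ∀ Y ∈ so (Gr v p q), Good v r Y → Y ∈ interior (Gr v p q) (VV v p q r).1
  bad : ∀ Y ∈ so (Gr v p q), Bad v r Y → Y ∉ (VV v p q r).1

theorem inv_var (hpq : ¬ p.eval v ≤ q.eval v) (i : ℕ) : Inv v (p := p) (q := q) (.var i) := by
  refine ⟨?_, ?_⟩
  · intro Y hY hg
    exact sub_interior (fun _ h => h.1) (UU_compl v i) (subset_cl _ _) ⟨hY, hg⟩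
  · intro Y hY hb h
    have h1 : (VV v p q (.var i)).1 ⊆ so (Gr v p q) \ {Y | Bad v (.var i) Y} :=
      cl_subset (fun Z hZ => ⟨hZ.1, fun hZ' => good_bad v hpq hZ.2 hZ'⟩) (bad_closed v _)
    exact (h1 h).2 hb

theorem top_good {r s : LTerm} {Y : Set (Vt v p q)} (h : Top v Y) : Good v r Y := Or.inl h

theorem VV_closed (r : LTerm) : IsClosedFam (Gr v p q) (VV v p q r).1 := (VV v p q r).closed

theorem inv_sup (hpq : ¬ p.eval v ≤ q.eval v) {r s : LTerm} (hr : Inv v (p := p) (q := q) r)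
    (hs : Inv v (p := p) (q := q) s) : Inv v (p := p) (q := q) (.sup r s) := by
  have e1 : (VV v p q r).1 ⊆ (VV v p q (.sup r s)).1 := by
    rw [VV_sup]; exact Set.subset_union_left.trans (subset_cl _ _)
  have e2 : (VV v p q s).1 ⊆ (VV v p q (.sup r s)).1 := by
    rw [VV_sup]; exact Set.subset_union_right.trans (subset_cl _ _)
  refine ⟨?_, ?_⟩
  · intro Y hY hg
    refine ⟨hY, fun hc => ?_⟩
    have h1 : so (Gr v p q) \ (VV v p q (.sup r s)).1 ⊆
        so (Gr v p q) \ {Y | Good v (.sup r s) Y} := by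
      rintro Z ⟨hZ, hZ'⟩
      refine ⟨hZ, fun hZg => hZ' ?_⟩
      rcases hZg with h | ⟨π, ρ, ⟨hf, h2, h3, h4⟩, h5⟩
      · exact e1 (interior_subset _ (hr.good Z hZ (Or.inl h)))
      · have h6 : ¬ (lab ρ).1.eval v ≤ (lab π).2.eval v := ep_sep v hpq h2.valid h3.valid h4
        have key : ∀ t : LTerm, Inv v (p := p) (q := q) t → t ∈ p.subs ++ q.subs →
            t.size < (lab ρ).1.size → (VV v p q t).1 ⊆ (VV v p q (.sup r s)).1 →
            ¬ t.eval v ≤ (lab π).2.eval v → Z ∈ (VV v p q (.sup r s)).1 := by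
          intro t ht hta hts hte htv
          obtain ⟨τ, hτ, k1, k2, k3, k4⟩ := child_up v h2.valid h3.valid h4 hta hts htv
          obtain ⟨m1, m2, m3, m4, m5⟩ := remove v (b := true) (b' := false) (by decide) hτ hf h3 h2
            k2 k3 (ep_comp k1)
          have n1 : Z \ {tk v true τ hτ} ∈ (VV v p q (.sup r s)).1 :=
            hte (interior_subset _ (ht.good _ m2 (Or.inr ⟨π, τ, ⟨m3, m5, m4, k1⟩, k4⟩)))
          have n2 : ({tk v true τ hτ} : Set (Vt v p q)) ∈ (VV v p q (.sup r s)).1 :=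
            hte (interior_subset _ (ht.good _ (so_tk v _ _ _) (top_tk v _ _)))
          have n3 := VV_closed v (.sup r s) _ n1 _ n2 Set.disjoint_sdiff_left
            (by rw [union_remove v m1]; exact hZ)
          rw [union_remove v m1] at n3
          exact n3
        have hsz := h5.2.1
        simp only [LTerm.size] at hsz
        by_cases h7 : r.eval v ≤ (lab π).2.eval v
        · have h8 : ¬ s.eval v ≤ (lab π).2.eval v := fun h8 =>
            h6 (h5.2.2.trans (sup_le h7 h8))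
          exact key s hs (alpha_sup h5.1).2 (by omega) e2 h8
        · exact key r hr (alpha_sup h5.1).1 (by omega) e1 h7
    exact (cl_subset h1 (good_closed v _) hc).2 hg
  · intro Y hY hb h
    have h1 : (VV v p q (.sup r s)).1 ⊆ so (Gr v p q) \ {Y | Bad v (.sup r s) Y} := by
      rw [VV_sup]
      refine cl_subset ?_ (bad_closed v _)
      have h2 : ∀ Z : Set (Vt v p q), Bad v (.sup r s) Z → Bad v r Z ∧ Bad v s Z := by
        rintro Z (h2 | ⟨π, ρ, h3, h4⟩)
        · exact ⟨Or.inl h2, Or.inl h2⟩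
        · have hsz := h4.2.1
          simp only [LTerm.size] at hsz
          have hle : r.eval v ⊔ s.eval v ≤ (lab π).2.eval v := h4.2.2
          exact ⟨Or.inr ⟨π, ρ, h3, (alpha_sup h4.1).1, by omega, le_sup_left.trans hle⟩,
            Or.inr ⟨π, ρ, h3, (alpha_sup h4.1).2, by omega, le_sup_right.trans hle⟩⟩
      rintro Z (hZ | hZ)
      · have hZs := (VV v p q r).2.1 hZ
        exact ⟨hZs, fun hZb => hr.bad Z hZs (h2 Z hZb).1 hZ⟩
      · have hZs := (VV v p q s).2.1 hZ
        exact ⟨hZs, fun hZb => hs.bad Z hZs (h2 Z hZb).2 hZ⟩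
    exact (h1 h).2 hb

theorem inv_inf (hpq : ¬ p.eval v ≤ q.eval v) {r s : LTerm} (hr : Inv v (p := p) (q := q) r)
    (hs : Inv v (p := p) (q := q) s) : Inv v (p := p) (q := q) (.inf r s) := by
  have eint : interior (Gr v p q) ((VV v p q r).1 ∩ (VV v p q s).1) ⊆
      interior (Gr v p q) (VV v p q (.inf r s)).1 :=
    interior_sub_interior (by rw [VV_inf]; exact subset_cl _ _)
  refine ⟨?_, ?_⟩
  · intro Y hY hg
    refine eint ⟨hY, fun hc => ?_⟩
    have h1 : so (Gr v p q) \ ((VV v p q r).1 ∩ (VV v p q s).1) ⊆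
        so (Gr v p q) \ {Y | Good v (.inf r s) Y} := by
      rintro Z ⟨hZ, hZ'⟩
      refine ⟨hZ, fun hZg => hZ' ?_⟩
      have h2 : Good v r Z ∧ Good v s Z := by
        rcases hZg with h2 | ⟨π, ρ, h3, h4⟩
        · exact ⟨Or.inl h2, Or.inl h2⟩
        · have hsz := h4.2.1
          simp only [LTerm.size] at hsz
          have hle : (lab ρ).1.eval v ≤ r.eval v ⊓ s.eval v := h4.2.2
          exact ⟨Or.inr ⟨π, ρ, h3, (alpha_inf h4.1).1, by omega, hle.trans inf_le_left⟩,
            Or.inr ⟨π, ρ, h3, (alpha_inf h4.1).2, by omega, hle.trans inf_le_right⟩⟩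
      exact ⟨interior_subset _ (hr.good Z hZ h2.1), interior_subset _ (hs.good Z hZ h2.2)⟩
    exact (cl_subset h1 (good_closed v _) hc).2 hg
  · intro Y hY hb h
    have h1 : (VV v p q (.inf r s)).1 ⊆ so (Gr v p q) \ {Y | Bad v (.inf r s) Y} := by
      rw [VV_inf]
      refine cl_subset ?_ (bad_closed v _)
      intro Z hZ
      have hZs := interior_sub_so _ hZ
      have hZi := interior_subset _ hZ
      refine ⟨hZs, fun hZb => ?_⟩
      rcases hZb with h2 | ⟨π, ρ, ⟨hf, h2, h3, h4⟩, h5⟩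
      · exact hr.bad Z hZs (Or.inl h2) hZi.1
      · have h6 : ¬ (lab ρ).1.eval v ≤ (lab π).2.eval v := ep_sep v hpq h2.valid h3.valid h4
        apply hZ.2
        have key : ∀ t : LTerm, Inv v (p := p) (q := q) t → t ∈ p.subs ++ q.subs →
            t.size < (lab π).2.size → (VV v p q r).1 ∩ (VV v p q s).1 ⊆ (VV v p q t).1 →
            ¬ (lab ρ).1.eval v ≤ t.eval v →
            Z ∈ cl (Gr v p q) (so (Gr v p q) \ ((VV v p q r).1 ∩ (VV v p q s).1)) := by
          intro t ht hta hts hte htv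
          obtain ⟨τ, hτ, k1, k2, k3, k4⟩ := child_down v h2.valid h3.valid h4 hta hts htv
          obtain ⟨m1, m2, m3, m4, m5⟩ := remove v (b := false) (b' := true) (by decide) hτ hf h2 h3
            k2 k3 (Or.symm (ep_comp k1))
          have n1 : Z \ {tk v false τ hτ} ∈
              so (Gr v p q) \ ((VV v p q r).1 ∩ (VV v p q s).1) :=
            ⟨m2, fun hh => ht.bad _ m2 (Or.inr ⟨τ, ρ, ⟨m3, m4, m5, k1⟩, k4⟩) (hte hh)⟩
          have n2 : ({tk v false τ hτ} : Set (Vt v p q)) ∈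
              so (Gr v p q) \ ((VV v p q r).1 ∩ (VV v p q s).1) :=
            ⟨so_tk v _ _ _, fun hh => ht.bad _ (so_tk v _ _ _) (bot_tk v _ _) (hte hh)⟩
          have n3 := cl_closed (Gr v p q) (so (Gr v p q) \ ((VV v p q r).1 ∩ (VV v p q s).1))
            _ (subset_cl _ _ n1) _ (subset_cl _ _ n2) Set.disjoint_sdiff_left
            (by rw [union_remove v m1]; exact hZs)
          rw [union_remove v m1] at n3
          exact n3
        by_cases h7 : (lab ρ).1.eval v ≤ r.eval v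
        · have h8 : ¬ (lab ρ).1.eval v ≤ s.eval v := fun h8 =>
            h6 ((le_inf h7 h8).trans h5.2.2)
          have hsz := h5.2.1
          simp only [LTerm.size] at hsz
          exact key s hs (alpha_inf h5.1).2 (by omega) Set.inter_subset_right h8
        · have hsz := h5.2.1
          simp only [LTerm.size] at hsz
          exact key r hr (alpha_inf h5.1).1 (by omega) Set.inter_subset_left h7
    exact (h1 h).2 hb

theorem inv_all (hpq : ¬ p.eval v ≤ q.eval v) (r : LTerm) : Inv v (p := p) (q := q) r := by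
  induction r with
  | var i => exact inv_var v hpq i
  | sup r s hr hs => exact inv_sup v hpq hr hs
  | inf r s hr hs => exact inv_inf v hpq hr hs

theorem fails (hpq : ¬ p.eval v ≤ q.eval v) : VV v p q p ≠ VV v p q q := by
  intro h
  have hf : Full v (Set.univ : Set (Vt v p q)) := fun _ => trivial
  have hD : ∀ b, IsD v b (Set.univ : Set (Vt v p q)) [] :=
    fun b => ⟨Or.inl rfl, fun π' h' h => (h trivial).elim⟩
  have hso : (Set.univ : Set (Vt v p q)) ∈ so (Gr v p q) :=
    so_of_chn v hf (fun x y hx => (hx trivial).elim)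
  have hM : MM v (Set.univ : Set (Vt v p q)) [] [] :=
    ⟨hf, hD false, hD true, Or.inl ⟨[], rfl, by simp⟩⟩
  have h1 := interior_subset _ ((inv_all v hpq p).good _ hso (Or.inr ⟨[], [], hM,
    ⟨List.mem_append_left _ (LTerm.self_mem_subs p), le_rfl, le_rfl⟩⟩))
  have h2 := (inv_all v hpq q).bad _ hso (Or.inr ⟨[], [], hM,
    ⟨List.mem_append_right _ (LTerm.self_mem_subs q), le_rfl, le_rfl⟩⟩)
  rw [h] at h1
  exact h2 h1

end Graph

universe u

/-- If the identity `s = t` holds in the lattice `R(G)` for all finite graphs `G`, then it holds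
in every lattice. -/
theorem main (s t : LTerm)
    (h : ∀ (V : Type) [Finite V] (G : SimpleGraph V) (F : ℕ → R G), s.eval F = t.eval F)
    (K : Type u) [Lattice K] (v : ℕ → K) : s.eval v = t.eval v := by
  by_contra hne
  by_cases h1 : s.eval v ≤ t.eval v
  · have h2 : ¬ t.eval v ≤ s.eval v := fun h2 => hne (le_antisymm h1 h2)
    have := vt_finite v t s
    exact fails v h2 (h (Vt v t s) (Gr v t s) (FF v t s)).symm
  · have := vt_finite v s t
    exact fails v h1 (h (Vt v s t) (Gr v s t) (FF v s t))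

end Pool.Agent.H711.LI
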