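import Mathlib

/-!
# Lattice terms and the tree of labelled words

For lattice terms `p`, `q` with `p ≰ q` under an assignment `v` in a lattice, the finite tree of the
valid words over the subterms of `p` and `q`. This part is taken over from the solution of the
corresponding question for transitive relations (MP_5c7113_al, Q1, module `R645.RegTree` of the
library).
-/

set_option autoImplicit false

namespace Pool.Agent.H711.LI

/-- Lattice terms in the variables `var 0, var 1, …`. -/
inductive LTerm where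
  | var (i : ℕ) : LTerm
  | sup (s t : LTerm) : LTerm
  | inf (s t : LTerm) : LTerm

/-- The value of a lattice term in a lattice under an assignment of the variables. -/
def LTerm.eval {K : Type*} [Lattice K] (v : ℕ → K) : LTerm → K
  | .var i => v i
  | .sup s t => s.eval v ⊔ t.eval v
  | .inf s t => s.eval v ⊓ t.eval v

/-! ### Terms -/

/-- the subterms of a term -/
def LTerm.subs : LTerm → List LTerm
  | .var i => [.var i]
  | .sup s t => .sup s t :: (s.subs ++ t.subs)
  | .inf s t => .inf s t :: (s.subs ++ t.subs)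

/-- the size of a term -/
def LTerm.size : LTerm → ℕ
  | .var _ => 1
  | .sup s t => s.size + t.size + 1
  | .inf s t => s.size + t.size + 1

theorem LTerm.self_mem_subs (p : LTerm) : p ∈ p.subs := by
  cases p <;> simp [LTerm.subs]

theorem LTerm.subs_sup {a b : LTerm} : ∀ p : LTerm, LTerm.sup a b ∈ p.subs →
    a ∈ p.subs ∧ b ∈ p.subs := by
  intro p
  induction p with
  | var i => intro h; simp [LTerm.subs] at h
  | sup s t ihs iht =>
    intro h
    simp only [LTerm.subs, List.mem_cons, List.mem_append] at h ⊢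
    rcases h with h | h | h
    · injection h with h1 h2
      subst h1 h2
      exact ⟨Or.inr (Or.inl (LTerm.self_mem_subs _)), Or.inr (Or.inr (LTerm.self_mem_subs _))⟩
    · exact ⟨Or.inr (Or.inl (ihs h).1), Or.inr (Or.inl (ihs h).2)⟩
    · exact ⟨Or.inr (Or.inr (iht h).1), Or.inr (Or.inr (iht h).2)⟩
  | inf s t ihs iht =>
    intro h
    simp only [LTerm.subs, List.mem_cons, List.mem_append] at h ⊢
    rcases h with h | h | h
    · cases h
    · exact ⟨Or.inr (Or.inl (ihs h).1), Or.inr (Or.inl (ihs h).2)⟩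
    · exact ⟨Or.inr (Or.inr (iht h).1), Or.inr (Or.inr (iht h).2)⟩

theorem LTerm.subs_inf {a b : LTerm} : ∀ p : LTerm, LTerm.inf a b ∈ p.subs →
    a ∈ p.subs ∧ b ∈ p.subs := by
  intro p
  induction p with
  | var i => intro h; simp [LTerm.subs] at h
  | inf s t ihs iht =>
    intro h
    simp only [LTerm.subs, List.mem_cons, List.mem_append] at h ⊢
    rcases h with h | h | h
    · injection h with h1 h2
      subst h1 h2
      exact ⟨Or.inr (Or.inl (LTerm.self_mem_subs _)), Or.inr (Or.inr (LTerm.self_mem_subs _))⟩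
    · exact ⟨Or.inr (Or.inl (ihs h).1), Or.inr (Or.inl (ihs h).2)⟩
    · exact ⟨Or.inr (Or.inr (iht h).1), Or.inr (Or.inr (iht h).2)⟩
  | sup s t ihs iht =>
    intro h
    simp only [LTerm.subs, List.mem_cons, List.mem_append] at h ⊢
    rcases h with h | h | h
    · cases h
    · exact ⟨Or.inr (Or.inl (ihs h).1), Or.inr (Or.inl (ihs h).2)⟩
    · exact ⟨Or.inr (Or.inr (iht h).1), Or.inr (Or.inr (iht h).2)⟩

/-! ### Words -/

section Tree

universe u

variable {K : Type u} [Lattice K] (v : ℕ → K) (p q : LTerm)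

/-- the alphabet -/
abbrev Al : Type := {r : LTerm // r ∈ p.subs ++ q.subs}

/-- words; the newest letter comes first -/
abbrev Word : Type := List (Bool × Al p q)

variable {p q}

/-- the label of a word: `(true, r)` replaces the first entry by `r`, `(false, r)` the second -/
def lab : Word p q → LTerm × LTerm
  | [] => (p, q)
  | (true, r) :: l => (r.1, (lab l).2)
  | (false, r) :: l => ((lab l).1, r.1)

/-- admissible words -/
def Valid : Word p q → Prop
  | [] => True
  | (true, r) :: l => Valid l ∧ r.1.size < (lab l).1.size ∧ ¬ r.1.eval v ≤ (lab l).2.eval v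
  | (false, r) :: l => Valid l ∧ r.1.size < (lab l).2.size ∧ ¬ (lab l).1.eval v ≤ r.1.eval v

theorem valid_length (l : Word p q) : Valid v l →
    l.length + (lab l).1.size + (lab l).2.size ≤ p.size + q.size := by
  induction l with
  | nil => intro _; simp [lab]
  | cons m l ih =>
    obtain ⟨b, r⟩ := m
    cases b
    · rintro ⟨h1, h2, -⟩
      have := ih h1
      simp only [lab, List.length_cons]
      omega
    · rintro ⟨h1, h2, -⟩
      have := ih h1
      simp only [lab, List.length_cons]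
      omega

theorem valid_lab (hpq : ¬ p.eval v ≤ q.eval v) (l : Word p q) (hl : Valid v l) :
    ¬ (lab l).1.eval v ≤ (lab l).2.eval v := by
  cases l with
  | nil => exact hpq
  | cons m l =>
    obtain ⟨b, r⟩ := m
    cases b
    · exact hl.2.2
    · exact hl.2.2

/-- `ρ` extends `π` by letters of kind `b` -/
def Ext (b : Bool) (π ρ : Word p q) : Prop := ∃ σ : Word p q, ρ = σ ++ π ∧ ∀ m ∈ σ, m.1 = b

/-- `ρ` extends `π`, with at least one letter of kind `b` -/
def SExt (b : Bool) (π ρ : Word p q) : Prop := ∃ σ : Word p q, ρ = σ ++ π ∧ ∃ m ∈ σ, m.1 = b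

/-- node pairs -/
def EP (π ρ : Word p q) : Prop := Ext true π ρ ∨ Ext false ρ π

theorem lab_ext_true {π ρ : Word p q} (h : Ext true π ρ) : (lab ρ).2 = (lab π).2 := by
  obtain ⟨σ, rfl, hσ⟩ := h
  induction σ with
  | nil => rfl
  | cons m σ ih =>
    obtain ⟨b, r⟩ := m
    have : b = true := hσ (b, r) List.mem_cons_self
    subst this
    exact ih (fun m hm => hσ m (List.mem_cons_of_mem _ hm))

theorem lab_ext_false {π ρ : Word p q} (h : Ext false π ρ) : (lab ρ).1 = (lab π).1 := by
  obtain ⟨σ, rfl, hσ⟩ := h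
  induction σ with
  | nil => rfl
  | cons m σ ih =>
    obtain ⟨b, r⟩ := m
    have : b = false := hσ (b, r) List.mem_cons_self
    subst this
    exact ih (fun m hm => hσ m (List.mem_cons_of_mem _ hm))

theorem ep_sep (hpq : ¬ p.eval v ≤ q.eval v) {π ρ : Word p q} (hπ : Valid v π) (hρ : Valid v ρ)
    (h : EP π ρ) : ¬ (lab ρ).1.eval v ≤ (lab π).2.eval v := by
  rcases h with h | h
  · rw [← lab_ext_true h]; exact valid_lab v hpq ρ hρ
  · rw [← lab_ext_false h]; exact valid_lab v hpq π hπ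

/-- the three kinds of pairs are disjoint -/
theorem ep_not_b {π ρ : Word p q} (h : EP π ρ) (h' : SExt true ρ π) : False := by
  obtain ⟨σ, hσ, m, hm, hm'⟩ := h'
  rcases h with ⟨τ, hτ, -⟩ | ⟨τ, hτ, hτ'⟩
  · rw [hτ] at hσ
    have := congrArg List.length hσ
    simp only [List.length_append] at this
    have h0 : σ.length = 0 := by omega
    rw [List.length_eq_zero_iff] at h0
    subst h0
    simp at hm
  · rw [hτ] at hσ
    have := List.append_cancel_right hσ
    subst this
    have := hτ' m hm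
    rw [hm'] at this
    cases this

theorem ep_not_t {π ρ : Word p q} (h : EP π ρ) (h' : SExt false π ρ) : False := by
  obtain ⟨σ, hσ, m, hm, hm'⟩ := h'
  rcases h with ⟨τ, hτ, hτ'⟩ | ⟨τ, hτ, -⟩
  · rw [hτ] at hσ
    have := List.append_cancel_right hσ
    subst this
    have := hτ' m hm
    rw [hm'] at this
    cases this
  · rw [hτ] at hσ
    have := congrArg List.length hσ
    simp only [List.length_append] at this
    have h0 : σ.length = 0 := by omega
    rw [List.length_eq_zero_iff] at h0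
    subst h0
    simp at hm

theorem b_not_t {π ρ : Word p q} (h : SExt true ρ π) (h' : SExt false π ρ) : False := by
  obtain ⟨σ, hσ, m, hm, -⟩ := h'
  obtain ⟨τ, hτ, -⟩ := h
  rw [hτ] at hσ
  have := congrArg List.length hσ
  simp only [List.length_append] at this
  have h0 : σ.length = 0 := by omega
  rw [List.length_eq_zero_iff] at h0
  subst h0
  simp at hm

theorem tri {π ρ : Word p q} (h : π <:+ ρ ∨ ρ <:+ π) :
    EP π ρ ∨ SExt true ρ π ∨ SExt false π ρ := by
  rcases h with ⟨σ, hσ⟩ | ⟨σ, hσ⟩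
  · by_cases hh : ∀ m ∈ σ, m.1 = true
    · exact Or.inl (Or.inl ⟨σ, hσ.symm, hh⟩)
    · push Not at hh
      obtain ⟨m, hm, hm'⟩ := hh
      exact Or.inr (Or.inr ⟨σ, hσ.symm, m, hm, by simpa using hm'⟩)
  · by_cases hh : ∀ m ∈ σ, m.1 = false
    · exact Or.inl (Or.inr ⟨σ, hσ.symm, hh⟩)
    · push Not at hh
      obtain ⟨m, hm, hm'⟩ := hh
      exact Or.inr (Or.inl ⟨σ, hσ.symm, m, hm, by simpa using hm'⟩)

theorem sext_trans {b : Bool} {π ρ τ : Word p q} (h : SExt b π ρ) (h' : ρ <:+ τ) :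
    SExt b π τ := by
  obtain ⟨σ, rfl, m, hm, hm'⟩ := h
  obtain ⟨σ', rfl⟩ := h'
  exact ⟨σ' ++ σ, by rw [List.append_assoc], m, List.mem_append_right _ hm, hm'⟩

theorem sext_trans' {b : Bool} {π ρ τ : Word p q} (h : SExt b ρ τ) (h' : π <:+ ρ) :
    SExt b π τ := by
  obtain ⟨σ, rfl, m, hm, hm'⟩ := h
  obtain ⟨σ', rfl⟩ := h'
  exact ⟨σ ++ σ', by rw [List.append_assoc], m, List.mem_append_left _ hm, hm'⟩

theorem lemA {π π' ρ : Word p q} (h : EP π ρ) (h1 : π <:+ π') (h2 : π' <:+ ρ ∨ ρ <:+ π') :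
    EP π' ρ ∨ SExt true ρ π' := by
  rcases tri h2 with h3 | h3 | h3
  · exact Or.inl h3
  · exact Or.inr h3
  · exact (ep_not_t h (sext_trans' h3 h1)).elim

theorem lemB {π ρ ρ' : Word p q} (h : EP π ρ) (h1 : ρ <:+ ρ') (h2 : π <:+ ρ' ∨ ρ' <:+ π) :
    EP π ρ' ∨ SExt false π ρ' := by
  rcases tri h2 with h3 | h3 | h3
  · exact Or.inl h3
  · exact (ep_not_b h (sext_trans' h3 h1)).elim
  · exact Or.inr h3

/-- tokens: a side and a valid word -/
def El (v : ℕ → K) (p q : LTerm) : Type := {x : Bool × Word p q // Valid v x.2}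

theorem el_finite : Finite (El v p q) := by
  have hA : Finite (Al p q) := (List.finite_toSet (p.subs ++ q.subs)).to_subtype
  have h1 : {l : Word p q | l.length ≤ p.size + q.size}.Finite := List.finite_length_le _ _
  have h2 : {x : Bool × Word p q | Valid v x.2}.Finite := by
    refine Set.Finite.subset (Set.Finite.prod (Set.finite_univ (α := Bool)) h1) ?_
    rintro ⟨b, l⟩ hl
    refine ⟨trivial, ?_⟩
    have := valid_length v l hl
    show l.length ≤ _
    omega
  exact h2.to_subtype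

/-- the terms that have to hold at a pair -/
def Gam (ρ : Word p q) (r : LTerm) : Prop :=
  r ∈ p.subs ++ q.subs ∧ r.size ≤ (lab ρ).1.size ∧ (lab ρ).1.eval v ≤ r.eval v

/-- the terms that must not hold at a pair -/
def Del (π : Word p q) (r : LTerm) : Prop :=
  r ∈ p.subs ++ q.subs ∧ r.size ≤ (lab π).2.size ∧ r.eval v ≤ (lab π).2.eval v

theorem sext_suffix {b : Bool} {π ρ : Word p q} (h : SExt b π ρ) : π <:+ ρ := by
  obtain ⟨σ, rfl, -⟩ := h
  exact List.suffix_append _ _

theorem ep_comp {π ρ : Word p q} (h : EP π ρ) : π <:+ ρ ∨ ρ <:+ π := by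
  rcases h with ⟨σ, rfl, -⟩ | ⟨σ, rfl, -⟩
  · exact Or.inl (List.suffix_append _ _)
  · exact Or.inr (List.suffix_append _ _)

theorem alpha_sup {a b : LTerm} (h : LTerm.sup a b ∈ p.subs ++ q.subs) :
    a ∈ p.subs ++ q.subs ∧ b ∈ p.subs ++ q.subs := by
  rw [List.mem_append] at h
  rcases h with h | h
  · exact ⟨List.mem_append_left _ (LTerm.subs_sup p h).1, List.mem_append_left _ (LTerm.subs_sup p h).2⟩
  · exact ⟨List.mem_append_right _ (LTerm.subs_sup q h).1, List.mem_append_right _ (LTerm.subs_sup q h).2⟩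

theorem alpha_inf {a b : LTerm} (h : LTerm.inf a b ∈ p.subs ++ q.subs) :
    a ∈ p.subs ++ q.subs ∧ b ∈ p.subs ++ q.subs := by
  rw [List.mem_append] at h
  rcases h with h | h
  · exact ⟨List.mem_append_left _ (LTerm.subs_inf p h).1, List.mem_append_left _ (LTerm.subs_inf p h).2⟩
  · exact ⟨List.mem_append_right _ (LTerm.subs_inf q h).1, List.mem_append_right _ (LTerm.subs_inf q h).2⟩

/-- the new upper element -/
theorem child_up {π ρ : Word p q} (hπ : Valid v π) (hρ : Valid v ρ) (h : EP π ρ) {r : LTerm}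
    (hr : r ∈ p.subs ++ q.subs) (h1 : r.size < (lab ρ).1.size)
    (h2 : ¬ r.eval v ≤ (lab π).2.eval v) :
    ∃ (τ : Word p q), Valid v τ ∧ EP π τ ∧ ρ <:+ τ ∧ ρ.length < τ.length ∧ Gam v τ r := by
  rcases h with h | h
  · refine ⟨(true, ⟨r, hr⟩) :: ρ, ⟨hρ, h1, ?_⟩, Or.inl ?_, List.suffix_cons _ _, by simp,
      hr, le_rfl, le_rfl⟩
    · rw [lab_ext_true h]; exact h2
    · obtain ⟨σ, rfl, hσ⟩ := h
      refine ⟨(true, ⟨r, hr⟩) :: σ, rfl, ?_⟩
      intro m hm
      rcases List.mem_cons.1 hm with rfl | hm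
      · rfl
      · exact hσ m hm
  · refine ⟨(true, ⟨r, hr⟩) :: π, ⟨hπ, ?_, h2⟩, Or.inl ⟨[(true, ⟨r, hr⟩)], rfl, ?_⟩, ?_, ?_,
      hr, le_rfl, le_rfl⟩
    · rw [lab_ext_false h]; exact h1
    · intro m hm
      rw [List.mem_singleton] at hm
      rw [hm]
    · obtain ⟨σ, rfl, hσ⟩ := h
      exact ⟨(true, ⟨r, hr⟩) :: σ, rfl⟩
    · obtain ⟨σ, rfl, hσ⟩ := h
      simp only [List.length_cons, List.length_append]
      omega

/-- the new lower element -/
theorem child_down {π ρ : Word p q} (hπ : Valid v π) (hρ : Valid v ρ) (h : EP π ρ) {r : LTerm}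
    (hr : r ∈ p.subs ++ q.subs) (h1 : r.size < (lab π).2.size)
    (h2 : ¬ (lab ρ).1.eval v ≤ r.eval v) :
    ∃ (τ : Word p q), Valid v τ ∧ EP τ ρ ∧ π <:+ τ ∧ π.length < τ.length ∧ Del v τ r := by
  rcases h with h | h
  · refine ⟨(false, ⟨r, hr⟩) :: ρ, ⟨hρ, ?_, h2⟩, Or.inr ⟨[(false, ⟨r, hr⟩)], rfl, ?_⟩, ?_, ?_,
      hr, le_rfl, le_rfl⟩
    · rw [lab_ext_true h]; exact h1
    · intro m hm
      rw [List.mem_singleton] at hm
      rw [hm]
    · obtain ⟨σ, rfl, hσ⟩ := h
      exact ⟨(false, ⟨r, hr⟩) :: σ, rfl⟩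
    · obtain ⟨σ, rfl, hσ⟩ := h
      simp only [List.length_cons, List.length_append]
      omega
  · refine ⟨(false, ⟨r, hr⟩) :: π, ⟨hπ, h1, ?_⟩, Or.inr ?_, List.suffix_cons _ _, by simp,
      hr, le_rfl, le_rfl⟩
    · rw [lab_ext_false h]; exact h2
    · obtain ⟨σ, rfl, hσ⟩ := h
      refine ⟨(false, ⟨r, hr⟩) :: σ, rfl, ?_⟩
      intro m hm
      rcases List.mem_cons.1 hm with rfl | hm
      · rfl
      · exact hσ m hm

end Tree

end Pool.Agent.H711.LI
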